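import Pool.Agent.Lib.MP_c7af3c_ag.T2.H18.Tools

/-!
# MP_c7af3c_ag, project T2: module W2 (helper18)
At most two of the vectors `x`, `W(p,q)` are independent.
-/

set_option autoImplicit false

namespace Pool.Agent.T2.H18

open MvPolynomial Pool.Agent.Gen Pool.Agent.Sharp Pool.Agent.Edge

/-- two coordinates: the hull has at most two independent coordinates -/
theorem no_hull {Ω : Type} [Field Ω] {k : Subfield Ω} {x : Fin (4 + 1) → Ω} {j0 : Fin (4 + 1)}
    (hj0 : x j0 = 1) {m : ℕ} (hm : 2 ≤ m) {t : Fin (m + 1) → Fin (4 + 1)}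
    {P : Fin (m + 1) → Fin (4 + 1) → Ω} (hu : Hull k x j0 t P) (z : Ω)
    (hz : ∀ a, ∃ u ∈ k, ∃ w ∈ k, x a = u + w * z) : False := by
  classical
  obtain ⟨u1, hu1, w1, hw1, e1⟩ := hz (t ⟨1, by omega⟩)
  obtain ⟨u2, hu2, w2, hw2, e2⟩ := hz (t ⟨2, by omega⟩)
  have e0 : x (t 0) = 1 := by rw [hu.t0, hj0]
  -- a general relation
  have rel : ∀ a0 a1 a2 : Ω, a0 ∈ k → a1 ∈ k → a2 ∈ k →
      a0 * x (t 0) + a1 * x (t ⟨1, by omega⟩) + a2 * x (t ⟨2, by omega⟩) = 0 →
      a1 = 0 ∧ a2 = 0 := by
    intro a0 a1 a2 h0 h1 h2 hr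
    have h3 := hu.yk (fun i => if i = 0 then a0 else if i = ⟨1, by omega⟩ then a1 else
      if i = ⟨2, by omega⟩ then a2 else 0) (fun i => by
        split_ifs
        · exact h0
        · exact h1
        · exact h2
        · exact k.zero_mem) (by
      refine Eq.trans ?_ hr
      have hne1 : (⟨1, by omega⟩ : Fin (m + 1)) ≠ 0 := by
        intro h; have := congrArg Fin.val h; simp at this
      have hne2 : (⟨2, by omega⟩ : Fin (m + 1)) ≠ 0 := by
        intro h; have := congrArg Fin.val h; simp at this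
      have hne3 : (⟨2, by omega⟩ : Fin (m + 1)) ≠ ⟨1, by omega⟩ := by
        intro h; have := congrArg Fin.val h; simp at this
      have h4 : ∀ i : Fin (m + 1), (if i = 0 then a0 else if i = ⟨1, by omega⟩ then a1 else
          if i = ⟨2, by omega⟩ then a2 else 0) * x (t i) =
          (if i = 0 then a0 * x (t 0) else 0) +
          (if i = ⟨1, by omega⟩ then a1 * x (t ⟨1, by omega⟩) else 0) +
          (if i = ⟨2, by omega⟩ then a2 * x (t ⟨2, by omega⟩) else 0) := by
        intro i
        by_cases i0 : i = 0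
        · subst i0
          rw [if_pos rfl, if_pos rfl, if_neg (Ne.symm hne1), if_neg (Ne.symm hne2)]
          ring
        · by_cases i1 : i = ⟨1, by omega⟩
          · subst i1
            rw [if_neg i0, if_pos rfl, if_neg i0, if_pos rfl, if_neg (Ne.symm hne3)]
            ring
          · by_cases i2 : i = ⟨2, by omega⟩
            · subst i2
              rw [if_neg i0, if_neg i1, if_pos rfl, if_neg i0, if_neg i1, if_pos rfl]
              ring
            · rw [if_neg i0, if_neg i1, if_neg i2, if_neg i0, if_neg i1, if_neg i2]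
              ring
      rw [Finset.sum_congr rfl fun i _ => h4 i, Finset.sum_add_distrib, Finset.sum_add_distrib,
        Finset.sum_ite_eq' , Finset.sum_ite_eq', Finset.sum_ite_eq', if_pos (Finset.mem_univ _),
        if_pos (Finset.mem_univ _), if_pos (Finset.mem_univ _)])
    have hne1 : (⟨1, by omega⟩ : Fin (m + 1)) ≠ 0 := by
      intro h; have := congrArg Fin.val h; simp at this
    have hne2 : (⟨2, by omega⟩ : Fin (m + 1)) ≠ 0 := by
      intro h; have := congrArg Fin.val h; simp at this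
    have hne3 : (⟨2, by omega⟩ : Fin (m + 1)) ≠ ⟨1, by omega⟩ := by
      intro h; have := congrArg Fin.val h; simp at this
    have k1 := congrFun h3 ⟨1, by omega⟩
    have k2 := congrFun h3 ⟨2, by omega⟩
    rw [if_neg hne1, if_pos rfl] at k1
    rw [if_neg hne2, if_neg hne3, if_pos rfl] at k2
    exact ⟨k1, k2⟩
  have h1 := rel (-(u1 * w2 - u2 * w1)) w2 (-w1)
    (k.neg_mem (k.sub_mem (k.mul_mem hu1 hw2) (k.mul_mem hu2 hw1))) hw2 (k.neg_mem hw1) (by
      rw [e0, e1, e2]
      ring)
  have h2 : w1 = 0 := neg_eq_zero.1 h1.2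
  have h3 := rel (-u1) 1 0 (k.neg_mem hu1) k.one_mem k.zero_mem (by
    rw [e0, e1, h2]
    ring)
  exact one_ne_zero h3.1

theorem w2 : W2Statement := by
  classical
  intro hL hT hH Ω _ _ k Γ _ S D x j0 h
  have h0 : eval x (D.F 0) = 0 := h.h0 0
  have hj0 := h.hj0
  have hx0 : x ≠ 0 := by
    intro hx
    rw [hx, Pi.zero_apply] at hj0
    exact one_ne_zero hj0.symm
  by_contra hc
  push Not at hc
  -- one more independent vector `W(p,q)` as long as the span is too small
  have step : ∀ (s : ℕ) (η : Fin s → Fin (4 + 1) → Ω), s ≤ 1 →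
      ∃ p q, WT D x p q ∉ Hs x η := by
    intro s η hs
    by_contra hcc
    push Not at hcc
    have h1 : Wsp D x ≤ Hs x η := by
      unfold Wsp
      rw [Submodule.span_le]
      rintro u (hu | ⟨p, q, rfl⟩)
      · rw [Set.mem_singleton_iff.1 hu]
        exact Submodule.subset_span (Set.mem_insert _ _)
      · exact hcc p q
    have h2 := Submodule.finrank_mono h1
    have h3 := finrank_ins_le (Ω := Ω) x η
    have h4 : Module.finrank Ω (Hs x η) ≤ s + 1 := h3
    omega
  obtain ⟨p1, q1, hW1⟩ := step 0 Fin.elim0 (by omega)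
  have li1 := li_snoc (li_zero (Ω := Ω) hx0 Fin.elim0) hW1
  obtain ⟨p2, q2, hW2⟩ := step 1 _ (le_refl 1)
  have li2 := li_snoc li1 hW2
  set η : Fin 2 → Fin (4 + 1) → Ω := Fin.snoc (α := fun _ => Fin (4 + 1) → Ω)
    (Fin.snoc (α := fun _ => Fin (4 + 1) → Ω) Fin.elim0 (WT D x p1 q1)) (WT D x p2 q2) with hη
  have hηW : ∀ a, ∃ p q, η a = WT D x p q := by
    intro a
    fin_cases a
    · exact ⟨p1, q1, rfl⟩
    · exact ⟨p2, q2, rfl⟩
  have hηT : ∀ a, η a ∈ Tan D x := by
    intro a
    obtain ⟨p, q, e⟩ := hηW a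
    rw [e]
    exact W_tan h0 p q
  by_cases hall : ∀ p q, WT D x p q ∈ Hs x η
  · -- `w = 2`
    let ε : (Unit ⊕ (Fin 2 ⊕ Fin 1)) ⊕ Fin 1 ≃ Fin (4 + 1) :=
      Fintype.equivOfCardEq (by simp)
    obtain ⟨I, hI, i, hi⟩ : ∃ I : Fin (4 + 1) →₀ ℕ, I.degree = 5 ∧ ∃ i,
        D.V x 0 (monomial I 1 * lf x j0 i) ∉ Hs x η := by
      by_contra hcc
      push Not at hcc
      have h1 := Submodule.finrank_mono (tan_le hj0 hall hcc)
      have h2 := finrank_Tan D x
      have h4 : Module.finrank Ω (Hs x η) ≤ 2 + 1 := finrank_ins_le (Ω := Ω) x η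
      omega
    have hA : Fk k 5 (monomial I (1 : Ω)) := by
      refine ⟨isHomogeneous_monomial _ hI, fun J => ?_⟩
      rw [coeff_monomial]
      split_ifs
      · exact k.one_mem
      · exact k.zero_mem
    set δ : Fin (4 + 1) → Ω := fun b => dt D x j0 ε η
      (fun _ : Fin 1 => D.V x 0 (monomial I 1 * lf x j0 b)) with hδ
    have hδi : δ i ≠ 0 := by
      refine dt_ne_zero h0 hj0 ε hηT (fun _ => Vlf_tan hj0 h0 hA.1 i) ?_
      have h1 := li_snoc li2 hi
      rw [Fintype.linearIndependent_iff] at h1 ⊢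
      intro g hg
      have h2 := h1 (Sum.elim (fun _ => g (Sum.inl default)) (Fin.snoc (α := fun _ => Ω)
        (fun a => g (Sum.inr (Sum.inl a))) (g (Sum.inr (Sum.inr 0))))) (by
        rw [Fintype.sum_sum_type, Fin.sum_univ_castSucc]
        rw [Fintype.sum_sum_type, Fintype.sum_sum_type] at hg
        simp only [Sum.elim_inl, Sum.elim_inr, Fin.snoc_castSucc, Fin.snoc_last,
          Finset.univ_unique, Finset.sum_singleton] at hg ⊢
        exact hg)
      rintro (a | a | a)
      · rw [Subsingleton.elim a default]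
        exact h2 (Sum.inl default)
      · have h3 := h2 (Sum.inr a.castSucc)
        rw [Sum.elim_inr, Fin.snoc_castSucc] at h3
        exact h3
      · have h3 := h2 (Sum.inr (Fin.last 2))
        rw [Sum.elim_inr, Fin.snoc_last] at h3
        rw [Subsingleton.elim a 0]
        exact h3
    have htau : ∀ a b, x a * δ b - x b * δ a ∈ k := by
      intro a b
      have h1 := hT hL Ω k Γ S D x j0 h 2 1 ε η
        (fun c => Or.inl (hηW c)) (monomial I 1) hA ![a, b]
      unfold tauB at h1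
      rw [Fin.sum_univ_two] at h1
      have e1 : (fun c : Fin 1 => D.V x 0 (monomial I (1 : Ω) *
          lf x j0 ((![a, b] : Fin 2 → Fin (4 + 1)) ((0 : Fin 2).succAbove c)))) =
          fun _ => D.V x 0 (monomial I 1 * lf x j0 b) := by
        funext c
        rw [Subsingleton.elim c 0]
        rfl
      have e2 : (fun c : Fin 1 => D.V x 0 (monomial I (1 : Ω) *
          lf x j0 ((![a, b] : Fin 2 → Fin (4 + 1)) ((1 : Fin 2).succAbove c)))) =
          fun _ => D.V x 0 (monomial I 1 * lf x j0 a) := by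
        funext c
        rw [Subsingleton.elim c 0]
        rfl
      rw [e1, e2] at h1
      have e3 : (-1 : Ω) ^ ((0 : Fin 2) : ℕ) = 1 := by norm_num
      have e4 : (-1 : Ω) ^ ((1 : Fin 2) : ℕ) = -1 := by norm_num
      rw [e3, e4] at h1
      have e5 : x a * δ b - x b * δ a = 1 * x ((![a, b] : Fin 2 → Fin (4 + 1)) 0) * δ b +
          -1 * x ((![a, b] : Fin 2 → Fin (4 + 1)) 1) * δ a := by
        simp only [Matrix.cons_val_zero, Matrix.cons_val_one]
        ring
      rw [e5]
      exact h1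
    have hδ0 : δ j0 = 0 := by
      refine dt_zero ε 0 ?_
      have e1 : lf x j0 j0 = 0 := by
        unfold lf
        rw [hj0, C_1, one_mul, sub_self]
      rw [e1, mul_zero, map_zero]
    have hδk : ∀ b, δ b ∈ k := by
      intro b
      have h1 := htau j0 b
      rwa [hδ0, mul_zero, sub_zero, hj0, one_mul] at h1
    obtain ⟨m, t, P, hm, hu⟩ := hH Ω k Γ S D x j0 h
    refine no_hull hj0 hm hu (x i) fun a => ?_
    refine ⟨(δ i)⁻¹ * (x a * δ i - x i * δ a), k.mul_mem (k.inv_mem (hδk i)) (htau a i),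
      (δ i)⁻¹ * δ a, k.mul_mem (k.inv_mem (hδk i)) (hδk a), ?_⟩
    field_simp
    ring
  · -- `w = 3`
    push Not at hall
    obtain ⟨p3, q3, hW3⟩ := hall
    have li3 := li_snoc li2 hW3
    let ε : (Unit ⊕ (Fin 3 ⊕ Fin 0)) ⊕ Fin 1 ≃ Fin (4 + 1) :=
      Fintype.equivOfCardEq (by simp)
    set η3 : Fin 3 → Fin (4 + 1) → Ω := Fin.snoc (α := fun _ => Fin (4 + 1) → Ω) η
      (WT D x p3 q3) with hη3
    have hη3W : ∀ a, ∃ p q, η3 a = WT D x p q := by
      intro a
      rcases Fin.eq_castSucc_or_eq_last a with ⟨b, rfl⟩ | rfl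
      · obtain ⟨p, q, e⟩ := hηW b
        exact ⟨p, q, by rw [hη3, Fin.snoc_castSucc, e]⟩
      · exact ⟨p3, q3, by rw [hη3, Fin.snoc_last]⟩
    have hdt : dt D x j0 ε η3 Fin.elim0 ≠ 0 := by
      refine dt_ne_zero h0 hj0 ε (fun a => ?_) (fun a => a.elim0) ?_
      · obtain ⟨p, q, e⟩ := hη3W a
        rw [e]
        exact W_tan h0 p q
      · rw [Fintype.linearIndependent_iff] at li3 ⊢
        intro g hg
        have h2 := li3 (fun a => g (Sum.map id Sum.inl a)) (by
          rw [Fintype.sum_sum_type]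
          rw [Fintype.sum_sum_type, Fintype.sum_sum_type] at hg
          simpa using hg)
        rintro (a | a | a)
        · exact h2 (Sum.inl a)
        · exact h2 (Sum.inr a)
        · exact a.elim0
    have hmem : ∀ j, x j * dt D x j0 ε η3 Fin.elim0 ∈ k := by
      intro j
      have h1 := hT hL Ω k Γ S D x j0 h 3 0 ε η3
        (fun c => Or.inl (hη3W c)) 0 ⟨isHomogeneous_zero _ _ _, fun I => by
          rw [coeff_zero]; exact k.zero_mem⟩ fun _ => j
      unfold tauB at h1
      rw [Fin.sum_univ_one] at h1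
      have e1 : (fun b : Fin 0 => D.V x 0 (0 * lf x j0 ((fun _ : Fin (0 + 1) => j)
          ((0 : Fin (0 + 1)).succAbove b)))) = Fin.elim0 := Subsingleton.elim _ _
      rw [e1] at h1
      have e2 : (-1 : Ω) ^ ((0 : Fin (0 + 1)) : ℕ) = 1 := by norm_num
      rw [e2, one_mul] at h1
      exact h1
    have hdk : dt D x j0 ε η3 Fin.elim0 ∈ k := by
      have h1 := hmem j0
      rwa [hj0, one_mul] at h1
    obtain ⟨i, hi⟩ := h.xk
    apply hi
    have h1 : x i = x i * dt D x j0 ε η3 Fin.elim0 * (dt D x j0 ε η3 Fin.elim0)⁻¹ := by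
      rw [mul_inv_cancel_right₀ hdt]
    rw [h1]
    exact k.mul_mem (hmem i) (k.inv_mem hdk)

end Pool.Agent.T2.H18
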