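import Pool.Agent.Lib.MP_c7af3c_ag.T2.Iface
import Pool.Agent.Lib.MP_c7af3c_ag.T2.H54.Small
import Pool.Agent.Lib.MP_c7af3c_ag.SHARP.H26.Pair

/-!
# MP_c7af3c_ag, project T2, regular part: tools (helper18)
-/

set_option autoImplicit false

namespace Pool.Agent.T2.H18

open MvPolynomial Pool.Agent.Gen Pool.Agent.Sharp Pool.Agent.Edge

/-! ### forms which vanish at a point -/

section forms

variable {Ω : Type} [Field Ω] {n : ℕ} (x : Fin (n + 1) → Ω) (j0 : Fin (n + 1))

/-- the span of the products of a monomial and a form `X_i - x_i X_j0` -/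
noncomputable def LS (e : ℕ) : Submodule Ω (MvPolynomial (Fin (n + 1)) Ω) :=
  Submodule.span Ω {P | ∃ (I : Fin (n + 1) →₀ ℕ) (i : Fin (n + 1)), I.degree + 1 = e ∧
    P = monomial I 1 * lf x j0 i}

theorem LS_mul_X {e : ℕ} {P : MvPolynomial (Fin (n + 1)) Ω} (hP : P ∈ LS x j0 e)
    (j : Fin (n + 1)) : X j * P ∈ LS x j0 (e + 1) := by
  unfold LS at hP
  induction hP using Submodule.span_induction with
  | mem P hP =>
    obtain ⟨I, i, hI, rfl⟩ := hP
    refine Submodule.subset_span ⟨I + Finsupp.single j 1, i, ?_, ?_⟩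
    · rw [map_add, Finsupp.degree_single]
      omega
    · rw [← mul_assoc]
      congr 1
      rw [mul_comm, X, monomial_mul, one_mul]
  | zero => rw [mul_zero]; exact Submodule.zero_mem _
  | add P Q _ _ hP hQ => rw [mul_add]; exact Submodule.add_mem _ hP hQ
  | smul a P _ hP =>
    rw [mul_smul_comm]
    exact Submodule.smul_mem _ _ hP

theorem mono_LS (e : ℕ) (J : Fin (n + 1) →₀ ℕ) (hJ : J.degree = e) :
    monomial J (1 : Ω) - C (eval x (monomial J (1 : Ω))) * X j0 ^ e ∈ LS x j0 e := by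
  classical
  induction e generalizing J with
  | zero =>
    have h0 : J = 0 := (Finsupp.degree_eq_zero_iff J).1 hJ
    subst h0
    have h1 : (monomial (0 : Fin (n + 1) →₀ ℕ) (1 : Ω)) = 1 := rfl
    rw [h1, map_one, map_one, pow_zero, mul_one, sub_self]
    exact Submodule.zero_mem _
  | succ e ih =>
    obtain ⟨i, hi⟩ : ∃ i, J i ≠ 0 := by
      by_contra hc
      push Not at hc
      have : J = 0 := Finsupp.ext hc
      rw [this, map_zero] at hJ
      omega
    obtain ⟨J', rfl⟩ : ∃ J', J = J' + Finsupp.single i 1 := by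
      refine ⟨J - Finsupp.single i 1, ?_⟩
      rw [tsub_add_cancel_of_le]
      rw [Finsupp.single_le_iff]
      omega
    have hJ' : J'.degree = e := by
      rw [map_add, Finsupp.degree_single] at hJ
      omega
    have h1 := ih J' hJ'
    have h2 := LS_mul_X x j0 h1 j0
    have h3 : monomial J' (1 : Ω) * lf x j0 i ∈ LS x j0 (e + 1) :=
      Submodule.subset_span ⟨J', i, by omega, rfl⟩
    have h4 : monomial (J' + Finsupp.single i 1) (1 : Ω) = monomial J' 1 * X i := by
      rw [X, monomial_mul, one_mul]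
    have h5 := Submodule.add_mem _ h3 (Submodule.smul_mem _ (x i) h2)
    have h6 : monomial (J' + Finsupp.single i 1) (1 : Ω) -
        C (eval x (monomial (J' + Finsupp.single i 1) (1 : Ω))) * X j0 ^ (e + 1) =
        monomial J' 1 * lf x j0 i + x i • (X j0 * (monomial J' 1 -
          C (eval x (monomial J' (1 : Ω))) * X j0 ^ e)) := by
      rw [h4, map_mul, eval_X, map_mul, smul_eq_C_mul]
      unfold lf
      ring
    rw [h6]
    exact h5

theorem hom_LS {e : ℕ} {G : MvPolynomial (Fin (n + 1)) Ω} (hG : G.IsHomogeneous e) :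
    G - C (eval x G) * X j0 ^ e ∈ LS x j0 e := by
  have h1 : G - C (eval x G) * X j0 ^ e = ∑ I ∈ G.support, coeff I G • (monomial I (1 : Ω) -
      C (eval x (monomial I (1 : Ω))) * X j0 ^ e) := by
    simp only [smul_sub, Finset.sum_sub_distrib]
    congr 1
    · conv_lhs => rw [← support_sum_monomial_coeff G]
      refine Finset.sum_congr rfl fun I _ => ?_
      rw [smul_monomial, smul_eq_mul, mul_one]
    · conv_lhs => rw [← support_sum_monomial_coeff G]
      rw [map_sum, map_sum, Finset.sum_mul]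
      refine Finset.sum_congr rfl fun I _ => ?_
      have h2 : monomial I (coeff I G) = C (coeff I G) * monomial I (1 : Ω) := by
        rw [C_mul_monomial, mul_one]
      rw [h2, map_mul, eval_C, map_mul, smul_eq_C_mul, mul_assoc]
  rw [h1]
  refine Submodule.sum_mem _ fun I hI => Submodule.smul_mem _ _ (mono_LS x j0 e I ?_)
  have := hG (mem_support_iff.1 hI)
  rw [Finsupp.degree_eq_weight_one]
  exact this

theorem hom_LS0 {e : ℕ} {G : MvPolynomial (Fin (n + 1)) Ω} (hG : G.IsHomogeneous e)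
    (h : eval x G = 0) : G ∈ LS x j0 e := by
  have h1 := hom_LS x j0 hG
  rwa [h, map_zero, zero_mul, sub_zero] at h1

end forms

/-! ### the tangent space -/

section tan

variable {Ω : Type} [Field Ω] (D : D6 Ω) (x : Fin (4 + 1) → Ω) {j0 : Fin (4 + 1)}

theorem VT_one (G : Fin 1 → MvPolynomial (Fin (4 + 1)) Ω) : VT D x G = D.V x 0 (G 0) := by
  rw [VT_apply, Fin.sum_univ_one]

theorem WT_eq (p q : Fin (4 + 1)) :
    WT D x p q = x q • Pi.single p 1 + D.V x 0 (X q * pderiv p (D.F 0)) := by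
  unfold WT
  rw [VT_one]

/-- the gradient as a functional -/
noncomputable def gr : (Fin (4 + 1) → Ω) →ₗ[Ω] Ω :=
  ∑ p, (eval x (pderiv p (D.F 0))) • LinearMap.proj p

theorem gr_apply (u : Fin (4 + 1) → Ω) :
    gr D x u = ∑ p, eval x (pderiv p (D.F 0)) * u p := by
  unfold gr
  rw [LinearMap.sum_apply]
  rfl

/-- the tangent space -/
noncomputable def Tan : Submodule Ω (Fin (4 + 1) → Ω) := LinearMap.ker (gr D x)

theorem mem_Tan {u : Fin (4 + 1) → Ω} :
    u ∈ Tan D x ↔ ∑ p, eval x (pderiv p (D.F 0)) * u p = 0 := by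
  unfold Tan
  rw [LinearMap.mem_ker, gr_apply]

theorem finrank_Tan : 4 ≤ Module.finrank Ω (Tan D x) := by
  have h1 := LinearMap.finrank_range_add_finrank_ker (gr D x)
  have h2 : Module.finrank Ω (LinearMap.range (gr D x)) ≤ 1 := by
    have := Submodule.finrank_le (LinearMap.range (gr D x))
    rwa [Module.finrank_self] at this
  rw [Module.finrank_fin_fun] at h1
  unfold Tan
  omega

variable {D x}

theorem x_tan (h0 : eval x (D.F 0) = 0) : x ∈ Tan D x :=
  (mem_Tan D x).2 (grad_x D x (fun m => by rw [Subsingleton.elim m 0]; exact h0) 0)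

theorem W_tan (h0 : eval x (D.F 0) = 0) (p q : Fin (4 + 1)) : WT D x p q ∈ Tan D x :=
  (mem_Tan D x).2 (grad_WT D x (fun m => by rw [Subsingleton.elim m 0]; exact h0) p q 0)

theorem gr_V (h0 : eval x (D.F 0) = 0) {G : MvPolynomial (Fin (4 + 1)) Ω}
    (hG : G.IsHomogeneous 6) : gr D x (D.V x 0 G) = - eval x G := by
  rw [gr_apply, Pool.Agent.Gen.H12.reln Ω 4 1 _ D x
    (fun m => by rw [Subsingleton.elim m 0]; exact h0) 0 0 G hG, if_pos rfl]

theorem V_tan (h0 : eval x (D.F 0) = 0) {G : MvPolynomial (Fin (4 + 1)) Ω}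
    (hG : G.IsHomogeneous 6) (h : eval x G = 0) : D.V x 0 G ∈ Tan D x := by
  unfold Tan
  rw [LinearMap.mem_ker, gr_V h0 hG, h, neg_zero]

theorem hom_mul_lf {A : MvPolynomial (Fin (4 + 1)) Ω} (hA : A.IsHomogeneous 5)
    (i : Fin (4 + 1)) : (A * lf x j0 i).IsHomogeneous 6 := hA.mul (hom_lf x j0 i)

theorem Vlf_tan (hj0 : x j0 = 1) (h0 : eval x (D.F 0) = 0) {A : MvPolynomial (Fin (4 + 1)) Ω}
    (hA : A.IsHomogeneous 5) (i : Fin (4 + 1)) : D.V x 0 (A * lf x j0 i) ∈ Tan D x := by
  refine V_tan h0 (hom_mul_lf hA i) ?_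
  rw [map_mul, eval_lf x hj0, mul_zero]

/-- a subspace with all `V(X^I l_i)` has all `V(G)`, `G` zero at `x` -/
theorem V_mem {T : Submodule Ω (Fin (4 + 1) → Ω)}
    (hV : ∀ I : Fin (4 + 1) →₀ ℕ, I.degree = 5 → ∀ i, D.V x 0 (monomial I 1 * lf x j0 i) ∈ T)
    {G : MvPolynomial (Fin (4 + 1)) Ω} (hG : G.IsHomogeneous 6) (h : eval x G = 0) :
    D.V x 0 G ∈ T := by
  have h1 : LS x j0 6 ≤ T.comap (D.V x 0) := by
    unfold LS
    rw [Submodule.span_le]
    rintro _ ⟨I, i, hI, rfl⟩
    exact hV I (by omega) i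
  exact h1 (hom_LS0 x j0 hG h)

/-- the tangent space is contained in every subspace with all `W(p,q)` and `V(G)` -/
theorem tan_le' (hj0 : x j0 = 1) {T : Submodule Ω (Fin (4 + 1) → Ω)}
    (hW : ∀ p q, WT D x p q ∈ T)
    (hV : ∀ G : MvPolynomial (Fin (4 + 1)) Ω, G.IsHomogeneous 6 → eval x G = 0 → D.V x 0 G ∈ T) :
    Tan D x ≤ T := by
  intro u hu
  rw [mem_Tan] at hu
  have hF := D.hom 0
  -- the form `X_j0 sum u_p F_p`
  have hH : (∑ p, C (u p) * (X j0 * pderiv p (D.F 0))).IsHomogeneous 6 := by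
    refine IsHomogeneous.sum _ _ _ fun p _ => ?_
    have h1 := (isHomogeneous_C (Fin (4 + 1)) (u p)).mul
      (hom_XF' D (0 : Fin 1) p j0)
    rwa [zero_add] at h1
  have hHx : eval x (∑ p, C (u p) * (X j0 * pderiv p (D.F 0))) = 0 := by
    rw [map_sum, ← hu]
    refine Finset.sum_congr rfl fun p _ => ?_
    rw [map_mul, map_mul, eval_C, eval_X, hj0, one_mul, mul_comm]
  have h1 : u = ∑ p, u p • WT D x p j0 - D.V x 0 (∑ p, C (u p) * (X j0 * pderiv p (D.F 0))) := by
    rw [map_sum, ← Finset.sum_sub_distrib]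
    have h2 : ∀ p, u p • WT D x p j0 - D.V x 0 (C (u p) * (X j0 * pderiv p (D.F 0))) =
        Pi.single p (u p) := by
      intro p
      rw [WT_eq, hj0, one_smul, smul_add, ← smul_eq_C_mul, map_smul, add_sub_cancel_right,
        ← Pi.single_smul, smul_eq_mul, mul_one]
    rw [Finset.sum_congr rfl fun p _ => h2 p]
    exact (Finset.univ_sum_single u).symm
  rw [h1]
  exact T.sub_mem (Submodule.sum_mem _ fun p _ => T.smul_mem _ (hW p j0)) (hV _ hH hHx)

theorem tan_le (hj0 : x j0 = 1) {T : Submodule Ω (Fin (4 + 1) → Ω)}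
    (hW : ∀ p q, WT D x p q ∈ T)
    (hV : ∀ I : Fin (4 + 1) →₀ ℕ, I.degree = 5 → ∀ i, D.V x 0 (monomial I 1 * lf x j0 i) ∈ T) :
    Tan D x ≤ T :=
  tan_le' hj0 hW fun _ hG h => V_mem hV hG h

end tan

/-! ### independent families -/

section li

variable {Ω : Type} [Field Ω] {V : Type} [AddCommGroup V] [Module Ω V]

theorem li_snoc {x : V} {s : ℕ} {η : Fin s → V} {u : V}
    (h : LinearIndependent Ω (Sum.elim (fun _ : Unit => x) η))
    (hu : u ∉ Submodule.span Ω (insert x (Set.range η))) :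
    LinearIndependent Ω (Sum.elim (fun _ : Unit => x) (Fin.snoc (α := fun _ => V) η u)) := by
  rw [Fintype.linearIndependent_iff] at h ⊢
  intro g hg
  rw [Fintype.sum_sum_type, Fin.sum_univ_castSucc] at hg
  simp only [Sum.elim_inl, Sum.elim_inr, Fin.snoc_castSucc, Fin.snoc_last,
    Finset.univ_unique, Finset.sum_singleton] at hg
  have hx : x ∈ Submodule.span Ω (insert x (Set.range η)) :=
    Submodule.subset_span (Set.mem_insert _ _)
  have hη : ∀ i, η i ∈ Submodule.span Ω (insert x (Set.range η)) := fun i =>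
    Submodule.subset_span (Set.mem_insert_of_mem _ ⟨i, rfl⟩)
  have hl : g (Sum.inr (Fin.last s)) = 0 := by
    by_contra hne
    apply hu
    have h1 : g (Sum.inr (Fin.last s)) • u ∈ Submodule.span Ω (insert x (Set.range η)) := by
      have h2 : g (Sum.inr (Fin.last s)) • u = -(g (Sum.inl default) • x +
          ∑ i : Fin s, g (Sum.inr i.castSucc) • η i) := by
        rw [eq_neg_iff_add_eq_zero, ← hg]
        abel
      rw [h2]
      exact Submodule.neg_mem _ (Submodule.add_mem _ (Submodule.smul_mem _ _ hx)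
        (Submodule.sum_mem _ fun i _ => Submodule.smul_mem _ _ (hη i)))
    exact (Submodule.smul_mem_iff _ hne).1 h1
  rw [hl, zero_smul, add_zero] at hg
  have h3 := h (Sum.elim (fun _ => g (Sum.inl default)) fun i => g (Sum.inr i.castSucc)) (by
    rw [Fintype.sum_sum_type]
    simpa using hg)
  rintro (a | b)
  · rw [Subsingleton.elim a default]
    exact h3 (Sum.inl default)
  · rcases Fin.eq_castSucc_or_eq_last b with ⟨i, rfl⟩ | rfl
    · exact h3 (Sum.inr i)
    · exact hl

theorem li_zero {x : V} (hx : x ≠ 0) (η : Fin 0 → V) :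
    LinearIndependent Ω (Sum.elim (fun _ : Unit => x) η) := by
  rw [Fintype.linearIndependent_iff]
  intro g hg
  rw [Fintype.sum_sum_type] at hg
  simp only [Sum.elim_inl, Finset.univ_unique, Finset.sum_singleton, Finset.univ_eq_empty,
    Finset.sum_empty, add_zero] at hg
  rintro (a | b)
  · exact (smul_eq_zero.1 hg).resolve_right hx
  · exact b.elim0

theorem finrank_ins_le (x : V) {s : ℕ} (η : Fin s → V) :
    Module.finrank Ω (Submodule.span Ω (insert x (Set.range η))) ≤ s + 1 := by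
  classical
  have h1 : insert x (Set.range η) = ((insert x (Finset.univ.image η) : Finset V) : Set V) := by
    simp
  rw [h1]
  refine (finrank_span_finset_le_card _).trans ?_
  refine (Finset.card_insert_le _ _).trans ?_
  have := Finset.card_image_le (s := Finset.univ) (f := η)
  rw [Finset.card_univ, Fintype.card_fin] at this
  omega

end li

/-! ### determinants -/

section det

variable {Ω : Type} [Field Ω] {D : D6 Ω} {x : Fin (4 + 1) → Ω} {j0 : Fin (4 + 1)}

theorem det_ne_zero_of_li {κ : Type} [Fintype κ] [DecidableEq κ] (ε : κ ≃ Fin (4 + 1))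
    {K : κ → Fin (4 + 1) → Ω} (h : LinearIndependent Ω K) :
    Matrix.det (Matrix.of fun a k => K k (ε a)) ≠ 0 := by
  have h1 : LinearIndependent Ω fun k a => K k (ε a) := by
    have h2 := h.map' (LinearMap.funLeft Ω Ω ε) (LinearMap.ker_eq_bot.2
      (LinearMap.funLeft_injective_of_surjective Ω Ω ε ε.surjective))
    exact h2
  have h3 := Matrix.linearIndependent_cols_iff_isUnit.1
    (show LinearIndependent Ω (Matrix.of fun a k => K k (ε a)).col from h1)
  exact ((Matrix.isUnit_iff_isUnit_det _).1 h3).ne_zero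

/-- the determinant of independent tangent vectors -/
theorem dt_ne_zero (h0 : eval x (D.F 0) = 0) (hj0 : x j0 = 1) {s r : ℕ}
    (ε : (Unit ⊕ (Fin s ⊕ Fin r)) ⊕ Fin 1 ≃ Fin (4 + 1))
    {η : Fin s → Fin (4 + 1) → Ω} {w : Fin r → Fin (4 + 1) → Ω}
    (hη : ∀ a, η a ∈ Tan D x) (hw : ∀ a, w a ∈ Tan D x)
    (hli : LinearIndependent Ω (Sum.elim (fun _ : Unit => x) (Sum.elim η w))) :
    dt D x j0 ε η w ≠ 0 := by
  unfold dt
  refine det_ne_zero_of_li ε (li_colU D x (fun m => by rw [Subsingleton.elim m 0]; exact h0)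
    _ hli ?_ (by rw [hj0]; exact one_ne_zero))
  intro a m
  rw [Subsingleton.elim m 0]
  rcases a with a | a | a
  · exact (mem_Tan D x).1 (x_tan h0)
  · exact (mem_Tan D x).1 (hη a)
  · exact (mem_Tan D x).1 (hw a)

/-- a column which is zero -/
theorem dt_zero {s r : ℕ} (ε : (Unit ⊕ (Fin s ⊕ Fin r)) ⊕ Fin 1 ≃ Fin (4 + 1))
    {η : Fin s → Fin (4 + 1) → Ω} {w : Fin r → Fin (4 + 1) → Ω} (a : Fin r) (h : w a = 0) :
    dt D x j0 ε η w = 0 := by
  unfold dt
  refine Matrix.det_eq_zero_of_column_eq_zero (Sum.inl (Sum.inr (Sum.inr a))) fun i => ?_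
  rw [Matrix.of_apply]
  simp only [colU, Sum.elim_inl, Sum.elim_inr, h, Pi.zero_apply]

end det

end Pool.Agent.T2.H18
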